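import Pool.Agent.X252.TPE

open scoped Classical

namespace Pool.Agent.Results.MP_78bba1_al.ApproximateEquality

open Pool.Agent.Y63.NV Pool.Agent.X252.TP

/-- Approximate equality in the blockwise Alperin weight conjecture implies equality. Here
`numIrrBlock B` is `l(B)`, `nwt p red B` is the number `w(B)` of conjugacy classes of weights of `B`,
and `Bd F X f g C ε` says that `f(B) ≤ C |H|^ε g(B)` for all blocks `B` of the finite groups `H` in
`X`. -/
theorem result (p : ℕ) [Fact p.Prime] (F : Type) [Field F] [IsAlgClosed F] [CharP F p]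
    (red : integralClosure ℤ ℂ →+* F) (X : ∀ (H : Type) [Group H], Prop)
    (hX : ∀ (H : Type) [Group H] [Finite H], X H → X (H × H)) :
    (∀ C ε : ℝ, Bd F X (fun _ _ => numIrrBlock) (fun _ _ => nwt p red) C ε →
      Bd F X (fun _ _ => numIrrBlock) (fun _ _ => nwt p red) 1 ε) ∧
    (∀ C ε : ℝ, Bd F X (fun _ _ => nwt p red) (fun _ _ => numIrrBlock) C ε →
      Bd F X (fun _ _ => nwt p red) (fun _ _ => numIrrBlock) 1 ε) ∧
    ((∀ ε : ℝ, 0 < ε → ∃ C : ℝ, Bd F X (fun _ _ => numIrrBlock) (fun _ _ => nwt p red) C ε) →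
      ∀ (H : Type) [Group H] [Finite H], X H → ∀ B : (H → F) → F, IsBlock B →
        numIrrBlock B ≤ nwt p red B) ∧
    ((∀ ε : ℝ, 0 < ε → ∃ C : ℝ, Bd F X (fun _ _ => nwt p red) (fun _ _ => numIrrBlock) C ε) →
      ∀ (H : Type) [Group H] [Finite H], X H → ∀ B : (H → F) → F, IsBlock B →
        nwt p red B ≤ numIrrBlock B) ∧
    ((∀ ε : ℝ, 0 < ε → ∃ C : ℝ, Bd F X (fun _ _ => numIrrBlock) (fun _ _ => nwt p red) C ε ∧
        Bd F X (fun _ _ => nwt p red) (fun _ _ => numIrrBlock) C ε) ↔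
      ∀ (H : Type) [Group H] [Finite H], X H → BAWC p red H) ∧
    (Closed p X → ((∀ ε : ℝ, 0 < ε → ∃ C : ℝ,
        Bd F (fun H _ => X H ∧ Reduced p H) (fun _ _ => numIrrBlock) (fun _ _ => nwt p red) C ε ∧
        Bd F (fun H _ => X H ∧ Reduced p H) (fun _ _ => nwt p red) (fun _ _ => numIrrBlock) C ε) ↔
      ∀ (Γ : Type) [Group Γ] [Finite Γ] (G : Subgroup Γ) [G.Normal], X G → IsPGroup p (Γ ⧸ G) →
        BAWC p red Γ)) := by
  refine ⟨fun C ε h => upper red X hX h, fun C ε h => lower red X hX h, fun h => ?_, fun h => ?_,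
    ⟨fun h => bawc_of_approx red X hX h, fun h ε hε => ⟨1, approx_of_bawc red X h hε.le⟩⟩,
    fun hC => ?_⟩
  · refine bd_lim (F := F) X (fun _ _ => numIrrBlock) (fun _ _ => nwt p red) fun ε hε => ?_
    obtain ⟨C, hC⟩ := h ε hε
    exact upper red X hX hC
  · refine bd_lim (F := F) X (fun _ _ => nwt p red) (fun _ _ => numIrrBlock) fun ε hε => ?_
    obtain ⟨C, hC⟩ := h ε hε
    exact lower red X hX hC
  · rw [← bawc_strong red X hC]
    constructor
    · intro h H _ _ hH hR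
      exact bawc_of_approx red (fun H _ => X H ∧ Reduced p H)
        (fun L _ _ hL => ⟨hX L hL.1, reduced_sq L hL.2⟩) h H ⟨hH, hR⟩
    · intro h ε hε
      exact ⟨1, approx_of_bawc red (fun H _ => X H ∧ Reduced p H)
        (fun H _ _ hH => h H hH.1 hH.2) hε.le⟩

end Pool.Agent.Results.MP_78bba1_al.ApproximateEquality
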