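import Pool.Agent.X282.KRB.Avg8

open scoped Classical

namespace Pool.Agent.Results.MP_78bba1_al.CyclicQuotients

open Pool.Agent.Y63.NV
open Pool.Agent.X282.KRB (dn numNav numWts)

/-- Let `G` be a normal subgroup of the finite group `Γ` such that `Γ/G` is a `p`-group.

(1) If the blockwise Alperin weight conjecture holds for all groups `K = G⟨γ⟩`, `γ ∈ Γ`, that is,
for all `K ⊇ G` with `K/G` cyclic, then it holds for `Γ`.

(2) Let `B` be a `Γ`-invariant block of `G` and `b_K` the block of `K` covering `B`, for all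
`G ≤ K ≤ Γ`. If `l(b_K) = w(b_K)` whenever `K/G` is cyclic, then `l(b_K) = w(b_K)` for all `K`, and
Navarro's equality holds for `B` and `G ⊴ K` whenever `K/G` is cyclic. -/
theorem result (p : ℕ) [Fact p.Prime] (F : Type) [Field F] [IsAlgClosed F] [CharP F p]
    (red : integralClosure ℤ ℂ →+* F) (Γ : Type) [Group Γ] [Finite Γ] (G : Subgroup Γ) [G.Normal]
    (hG : IsPGroup p (Γ ⧸ G)) :
    ((∀ γ : Γ, BAWC p red ↥(G ⊔ Subgroup.zpowers γ)) → BAWC p red Γ) ∧
    ∀ B : (G → F) → F, IsBlock B → IsInvBlock G B → ∀ b : ∀ K : Subgroup Γ, (K → F) → F,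
      (∀ K : Subgroup Γ, G ≤ K → IsBlock (b K)) →
      (∀ K : Subgroup Γ, G ≤ K → ∀ z : Γ → F, InZ G z →
        b K (fun x : K => z x) = B (fun x => z x)) →
      (∀ γ : Γ, numIrrBlock (b (G ⊔ Subgroup.zpowers γ)) =
        numWts p red (b (G ⊔ Subgroup.zpowers γ))) →
      (∀ K : Subgroup Γ, G ≤ K → numIrrBlock (b K) = numWts p red (b K)) ∧
      ∀ γ : Γ, numIBr (G.subgroupOf (G ⊔ Subgroup.zpowers γ))
          (dn (le_sup_left : G ≤ G ⊔ Subgroup.zpowers γ) B) =
        numNav p red (G.subgroupOf (G ⊔ Subgroup.zpowers γ))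
          (dn (le_sup_left : G ≤ G ⊔ Subgroup.zpowers γ) B) :=
  ⟨fun h => Pool.Agent.X282.KRB.bawc_cyclic red G hG h,
    fun _ hB hI b hb hbc heq => Pool.Agent.X282.KRB.cyc_block red G hG hB hI b hb hbc heq⟩

end Pool.Agent.Results.MP_78bba1_al.CyclicQuotients
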