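import Pool.Agent.X209.AWD.Main

/-!
# Alperin's weight conjecture and the duality of modules

Let `p` be a prime. For a finite group `H` let `l(H)` be the number of `p`-regular conjugacy classes
of `H` (by Brauer the number of simple modules over an algebraically closed field of characteristic
`p`) and let `w(H)` be the number of conjugacy classes of `p`-weights of `H`. The sum over all blocks
of Alperin's weight conjecture is the equation `l(H) = w(H)`.

For a finite group `H` and a finite module `V` over `𝔽_p[H]` let `w(V)` be the sum of `w(H_v)` over
representatives `v` of the orbits of `H` on `V`. We prove that the conjecture is equivalent to the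
equation `w(V) = w(V*)`, for all `V`, or only for the augmentation submodules of the permutation
modules on the cosets of cyclic `p`-subgroups. This holds for any set of groups closed under
subgroups, in particular for the subgroups of one group.
-/

open scoped Classical

noncomputable section

namespace Pool.Agent.Results.MP_78bba1_al.DualityForm

open Pool.Agent.Y63.AWC Pool.Agent.X209.AWD

/-- from the duality for cyclic `p`-subgroups to the conjecture, for all subgroups of `G` -/
theorem of_dual (p : ℕ) [Fact p.Prime] (G : Type) [Group G] [Finite G]
    (h : ∀ (H : Subgroup G) (x : H), (∃ a : ℕ, x ^ p ^ a = 1) →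
      DualInvariant (augRep p (Subgroup.zpowers x))) :
    ∀ (n : ℕ) (H : Subgroup G), Nat.card H = n → numRegularClasses p H = numWeights p H := by
  intro n
  induction n using Nat.strong_induction_on with
  | _ n ih =>
    intro H hn
    refine step ?_ (h H)
    intro H' hH'
    have e : H' ≃* (H'.map H.subtype) :=
      H'.equivMapOfInjective H.subtype H.subtype_injective
    have h1 : Nat.card (H'.map H.subtype) < n := by
      rw [← Nat.card_congr e.toEquiv, ← hn]
      refine lt_of_le_of_ne (Nat.le_of_dvd Nat.card_pos (Subgroup.card_subgroup_dvd_card H')) ?_
      intro h2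
      exact hH' (Subgroup.eq_top_of_card_eq H' h2)
    have h2 := ih _ h1 (H'.map H.subtype) rfl
    rw [numRegularClasses_congr e, numWeights_congr e]
    exact h2

/-- Let `p` be a prime.

(1) For every finite group `G` the following are equivalent: (a) `l(H) = w(H)` for all subgroups `H`
of `G`; (b) `w(V) = w(V*)` for all subgroups `H` of `G` and all finite `𝔽_p[H]`-modules `V`;
(c) `w(V) = w(V*)` for all subgroups `H` of `G` and the modules `V` of the functions `H/C → 𝔽_p` with
the sum of values zero, where `C` is a cyclic `p`-subgroup of `H`.

(2) `l(G) = w(G)` holds for all finite groups `G` if and only if `w(V) = w(V*)` for all finite groups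
`G` and the modules `V` as in (c) for `G`.

(3) If `l(H) = w(H)` for all proper subgroups `H` of `G`, then
`w(V) - w(V*) = (|V^G| - |(V*)^G|) (w(G) - l(G))` for all finite `𝔽_p[G]`-modules `V`. -/
theorem result (p : ℕ) [Fact p.Prime] :
    (∀ (G : Type) [Group G] [Finite G],
      List.TFAE [
        ∀ H : Subgroup G, numRegularClasses p H = numWeights p H,
        ∀ (H : Subgroup G) (V : Type) [AddCommGroup V] [Module (ZMod p) V] [Finite V]
          (ρ : Representation (ZMod p) H V), weightSum ρ = weightSum ρ.dual,
        ∀ (H : Subgroup G) (x : H), (∃ a : ℕ, x ^ p ^ a = 1) →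
          weightSum (augRep p (Subgroup.zpowers x)) =
            weightSum (augRep p (Subgroup.zpowers x)).dual]) ∧
    ((∀ (G : Type) [Group G] [Finite G], numRegularClasses p G = numWeights p G) ↔
      ∀ (G : Type) [Group G] [Finite G] (x : G), (∃ a : ℕ, x ^ p ^ a = 1) →
        weightSum (augRep p (Subgroup.zpowers x)) =
          weightSum (augRep p (Subgroup.zpowers x)).dual) ∧
    (∀ (G : Type) [Group G] [Finite G] (V : Type) [AddCommGroup V] [Module (ZMod p) V] [Finite V]
      (ρ : Representation (ZMod p) G V),
      (∀ H : Subgroup G, H ≠ ⊤ → numRegularClasses p H = numWeights p H) →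
      (weightSum ρ : ℤ) - (weightSum ρ.dual : ℤ) =
        ((Nat.card {v : V // ∀ g : G, ρ g v = v} : ℤ) -
          (Nat.card {f : Module.Dual (ZMod p) V // ∀ g : G, ∀ v, f (ρ g v) = f v} : ℤ)) *
          ((numWeights p G : ℤ) - (numRegularClasses p G : ℤ))) := by
  have sub : ∀ (G : Type) [Group G] [Finite G] (H : Subgroup G),
      (∀ K : Subgroup G, numRegularClasses p K = numWeights p K) →
      ∀ K : Subgroup H, numRegularClasses p K = numWeights p K := by
    intro G _ _ H h K
    have e : K ≃* (K.map H.subtype) := K.equivMapOfInjective H.subtype H.subtype_injective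
    rw [numRegularClasses_congr e, numWeights_congr e]
    exact h _
  have fin : ∀ (G : Type) [Group G] [Finite G] (C : Subgroup G), Finite (AugModule p C) := by
    intro G _ _ C
    have : Finite (G ⧸ C → ZMod p) := inferInstance
    exact Finite.of_injective (fun f : AugModule p C => f.1) Subtype.val_injective
  refine ⟨?_, ?_, ?_⟩
  · intro G _ _
    tfae_have 1 → 2 := by
      intro h H V _ _ _ ρ
      exact dualInvariant_of (sub G H h) ρ
    tfae_have 2 → 3 := by
      intro h H x _
      have := fin H (Subgroup.zpowers x)
      exact h H _ _
    tfae_have 3 → 1 := by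
      intro h H
      exact of_dual p G h _ H rfl
    tfae_finish
  · constructor
    · intro h G _ _ x _
      have := fin G (Subgroup.zpowers x)
      exact dualInvariant_of (fun H => h H) _
    · intro h G _ _
      have h1 := of_dual p G (fun H x hx => h H x hx) _ ⊤ rfl
      rwa [numWeights_top, numRegularClasses_top] at h1
  · intro G _ _ V _ _ _ ρ hlt
    exact duality_defect hlt ρ

end Pool.Agent.Results.MP_78bba1_al.DualityForm
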